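import Pool.Agent.K1H22.DF.Stm6
import Pool.Agent.K1H1.DF.L3

/-! # Vertex-fault-tolerant graphs of diameter six: the lower bound from the pieces -/

set_option autoImplicit false

open Finset

namespace Pool.Agent.K1H11.DF6

open Pool.Agent.K1H22.DF

section

variable {V : Type} [Fintype V] [DecidableEq V] (G : SimpleGraph V) [DecidableRel G.Adj]

theorem exc_le (D k c : ℕ) (hk : 1 ≤ k)
    (h : ∀ h, (X6 G D k h).card ≤ c ∧ (X6 G D k h).card ≤ k * G.degree h) :
    ((hub G D).biUnion (X6 G D k)).card ≤ k * ∑ h ∈ hub G D, min (G.degree h) c := by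
  refine card_biUnion_le.trans ?_
  rw [Finset.mul_sum]
  refine Finset.sum_le_sum fun x _ => ?_
  obtain ⟨a, b⟩ := h x
  rcases le_total (G.degree x) c with h1 | h1
  · rw [min_eq_left h1]; exact b
  · rw [min_eq_right h1]; exact a.trans (Nat.le_mul_of_pos_left _ hk)

end

theorem t_L6 (h1 : S_DEEP6) (h2 : S_EXC6) (h3 : S_SCALE) (h4 : S_DISCH6) (h5 : S_MIN) : S_L6 := by
  classical
  intro k hk ε hε
  choose Cd hCd using fun D => h1 k D hk
  choose Ce hCe using fun D => h2 k D hk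
  have hk1 : (1 : ℝ) ≤ k := by exact_mod_cast hk
  have hkR : (0 : ℝ) < (k : ℝ) + 1 := by positivity
  obtain ⟨D0, hD0⟩ := exists_nat_gt (((k : ℝ) * (k + 1) + 2) * (k + 1) / ε)
  obtain ⟨D1, hD1⟩ := h3 Ce D0 ((k : ℝ) + 1) (ε / (2 * k)) (by positivity)
  obtain ⟨M, hM⟩ : ∃ M, M = (range (D1 + 1)).sup Cd := ⟨_, rfl⟩
  have hCM : ∀ D, D ≤ D1 → Cd D ≤ M := by
    intro D hD
    rw [hM]
    exact Finset.le_sup (mem_range.2 (Nat.lt_succ_of_le hD))
  obtain ⟨N, hN⟩ := exists_nat_ge (2 * (M : ℝ) / ε)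
  refine ⟨max N (k + 1), fun n hn G hG => ?_⟩
  have hn1 : N ≤ n := (le_max_left _ _).trans hn
  have hn2 : k + 1 ≤ n := (le_max_right _ _).trans hn
  have hnR : (0 : ℝ) < n := by
    have : 0 < n := by omega
    exact_mod_cast this
  have hD0pos : (0 : ℝ) < D0 := lt_of_le_of_lt (by positivity) hD0
  have hmin : ∀ v, k ≤ G.degree v := h5 (Fin n) G 6 k hk (by rw [Fintype.card_fin]; exact hn2) hG
  have hsum := G.sum_degrees_eq_twice_card_edges
  have hE : G.edgeSet.ncard = G.edgeFinset.card := by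
    rw [Set.ncard_eq_toFinset_card']
    rfl
  rw [hE]
  by_contra hcon
  rw [not_le] at hcon
  have hinv : (1 : ℝ) / (k + 1) * (k + 1) = 1 := by field_simp
  have hinv2 : (1 : ℝ) / (k + 1) ≤ 1 / 2 := by
    apply one_div_le_one_div_of_le <;> linarith
  have hdeg : ((∑ v, G.degree v : ℕ) : ℝ) ≤ ((k : ℝ) + 1) * Fintype.card (Fin n) := by
    rw [hsum, Fintype.card_fin]
    push_cast
    have h6 : 0 ≤ ε * n := by positivity
    have h7 : (1 : ℝ) / (k + 1) * n ≤ 1 / 2 * n := mul_le_mul_of_nonneg_right hinv2 hnR.le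
    linarith
  obtain ⟨D, hDa, hDb, hDc⟩ := hD1 (Fin n) G hdeg
  rw [Fintype.card_fin] at hDc
  have hexc := exc_le G D k (Ce D) hk (hCe D (Fin n) G hG)
  have hdis := h4 (Fin n) G D k (Cd D) hk hmin (by
    rcases le_total (Z0 G D).card (Cd D) with h | h
    · exact Or.inl h
    · exact Or.inr (hCd D (Fin n) G hG h))
  have hub1 := Pool.Agent.K1H1.DF.hub_card G D
  have hBc : (univ.filter (fun v => v ∉ hub G D)).card + (hub G D).card = n := by
    have e : univ.filter (fun v => v ∉ hub G D) = (hub G D)ᶜ := by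
      ext v
      simp
    rw [e, Finset.card_compl_add_card, Fintype.card_fin]
  rw [hsum] at hdis
  obtain ⟨e, he⟩ : ∃ e, e = G.edgeFinset.card := ⟨_, rfl⟩
  rw [← he] at hdis hub1 hcon
  have hxR : (((hub G D).biUnion (X6 G D k)).card : ℝ) ≤ ε / 2 * n := by
    have a1 : (((hub G D).biUnion (X6 G D k)).card : ℝ) ≤
        k * ((∑ h ∈ hub G D, min (G.degree h) (Ce D) : ℕ) : ℝ) := by
      exact_mod_cast hexc
    have a2 : (k : ℝ) * ((∑ h ∈ hub G D, min (G.degree h) (Ce D) : ℕ) : ℝ) ≤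
        k * (ε / (2 * k) * n) := mul_le_mul_of_nonneg_left hDc (by positivity)
    have a3 : (k : ℝ) * (ε / (2 * k) * n) = ε / 2 * n := by
      field_simp
    linarith
  have hcR : (Cd D : ℝ) ≤ M := by exact_mod_cast hCM D hDb
  have hdisR : ((k : ℝ) * (k + 1) + 2) * ((univ.filter (fun v => v ∉ hub G D)).card : ℝ) ≤
      (k + 1) * (2 * e) + 2 * ((((hub G D).biUnion (X6 G D k)).card : ℝ) + Cd D) := by
    exact_mod_cast hdis
  have hub1R : ((hub G D).card : ℝ) * D0 ≤ 2 * e := by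
    have a1 : ((hub G D).card : ℝ) * D ≤ 2 * e := by exact_mod_cast hub1
    have a2 : (D0 : ℝ) ≤ D := by exact_mod_cast hDa
    have a3 : (0 : ℝ) ≤ ((hub G D).card : ℝ) := Nat.cast_nonneg _
    nlinarith
  have hBcR : ((univ.filter (fun v => v ∉ hub G D)).card : ℝ) + ((hub G D).card : ℝ) = n := by
    exact_mod_cast hBc
  generalize ((hub G D).card : ℝ) = h at *
  generalize ((univ.filter (fun v => v ∉ hub G D)).card : ℝ) = b at *
  generalize (((hub G D).biUnion (X6 G D k)).card : ℝ) = x at *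
  generalize (Cd D : ℝ) = c at *
  have hb : b = n - h := by linarith
  subst hb
  have h2e : 2 * (e : ℝ) ≤ (k + 1) * n := by
    have h6 : 0 ≤ ε * n := by positivity
    have h7 : (1 : ℝ) / (k + 1) * n ≤ 1 / 2 * n := mul_le_mul_of_nonneg_right hinv2 hnR.le
    linarith
  have a2 : ((k : ℝ) * (k + 1) + 2) * (k + 1) ≤ D0 * ε := by
    rw [div_lt_iff₀ hε] at hD0
    exact hD0.le
  have a3 : ((k : ℝ) * (k + 1) + 2) * h ≤ ε * n := by
    have b1 : D0 * (((k : ℝ) * (k + 1) + 2) * h) ≤ D0 * (ε * n) := by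
      calc D0 * (((k : ℝ) * (k + 1) + 2) * h) = ((k : ℝ) * (k + 1) + 2) * (h * D0) := by ring
        _ ≤ ((k : ℝ) * (k + 1) + 2) * ((k + 1) * n) :=
            mul_le_mul_of_nonneg_left (hub1R.trans h2e) (by positivity)
        _ = ((k : ℝ) * (k + 1) + 2) * (k + 1) * n := by ring
        _ ≤ (D0 * ε) * n := mul_le_mul_of_nonneg_right a2 hnR.le
        _ = D0 * (ε * n) := by ring
    exact le_of_mul_le_mul_left b1 hD0pos
  have a4 : 2 * (M : ℝ) ≤ ε * n := by
    rw [div_le_iff₀ hε] at hN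
    have : (N : ℝ) ≤ n := by exact_mod_cast hn1
    nlinarith
  have a5 : (k + 1) * (2 * (e : ℝ)) < ((k : ℝ) * (k + 1) + 2 - 2 * (k + 1) * ε) * n := by
    have b1 := mul_lt_mul_of_pos_left hcon (show (0 : ℝ) < 2 * (k + 1) by positivity)
    have b2 : 2 * ((k : ℝ) + 1) * (((k : ℝ) / 2 + 1 / (k + 1) - ε) * n) =
        ((k : ℝ) * (k + 1) + 2 - 2 * (k + 1) * ε) * n := by
      field_simp
    linarith
  have a6 : 0 < ε * n := by positivity
  nlinarith

end Pool.Agent.K1H11.DF6
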